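import Pool.Agent.W2helper21.RF.Stm

/-!
Project RF (helper21), piece CAT: the caterpillar lemma for formula trees.
-/

set_option autoImplicit false

namespace Pool.Agent.W2helper24.RF

open Pool.Agent.W2helper21.RF

variable {F : Type*} [Field F]

/-- the variables of the entries are the variables of the formula -/
theorem plug_vars {D : Fm F} {l : List (Bool × Fm F)} (h : Plug D l) (u : ℕ) :
    u ∈ D.vars ↔ ∃ p ∈ l, u ∈ p.2.vars := by
  induction h with
  | nil D => simp
  | addL h ih => simp only [Fm.vars, Finset.mem_union, ih, List.exists_mem_cons_iff]; exact or_comm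
  | addR h ih => simp only [Fm.vars, Finset.mem_union, ih, List.exists_mem_cons_iff]
  | mulL h ih => simp only [Fm.vars, Finset.mem_union, ih, List.exists_mem_cons_iff]; exact or_comm
  | mulR h ih => simp only [Fm.vars, Finset.mem_union, ih, List.exists_mem_cons_iff]

/-- the conclusion for `D`, `S`, `r` -/
def Concl (D : Fm F) (S : Finset ℕ) (r : ℕ) : Prop :=
  ∃ l : List (Bool × Fm F), Plug D l ∧ ∃ J ⊆ S, r ≤ J.card ∧
    ∀ l1 p l2, l = l1 ++ p :: l2 → ∃ u0, ∀ u ∈ J, u ≠ u0 → u ∈ p.2.vars →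
      ∃ p' ∈ l1 ++ l2, u ∈ p'.2.vars

theorem step (b r : ℕ) (D f g : Fm F) (op : Bool)
    (hplug : ∀ l', Plug f l' → Plug D ((op, g) :: l'))
    (ih : ∀ (r : ℕ) (S : Finset ℕ), S ⊆ f.vars → (b + 1) * 2 ^ r ≤ S.card → Concl f S r)
    (S : Finset ℕ) (hS : S ⊆ f.vars ∪ g.vars) (hc : (b + 1) * 2 ^ (r + 1) ≤ S.card)
    (hf : (b + 1) * 2 ^ r ≤ (S ∩ f.vars).card) : Concl D S (r + 1) := by
  classical
  by_cases h : S ⊆ f.vars
  · obtain ⟨l', hl', J, hJ, hJc, hJl⟩ := ih (r + 1) S h hc
    refine ⟨(op, g) :: l', hplug l' hl', J, hJ, hJc, fun l1 p l2 hl => ?_⟩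
    rcases l1 with _ | ⟨q, l1⟩
    · rw [List.nil_append, List.cons.injEq] at hl
      refine ⟨0, fun u hu _ _ => ?_⟩
      rw [List.nil_append, ← hl.2]
      exact (plug_vars hl' u).1 (h (hJ hu))
    · rw [List.cons_append, List.cons.injEq] at hl
      obtain ⟨u0, hu0⟩ := hJl l1 p l2 hl.2
      refine ⟨u0, fun u hu hne hp => ?_⟩
      obtain ⟨p', hp', hup⟩ := hu0 u hu hne hp
      exact ⟨p', List.mem_cons_of_mem _ hp', hup⟩
  · obtain ⟨w, hwS, hwf⟩ := Finset.not_subset.1 h
    obtain ⟨l', hl', J, hJ, hJc, hJl⟩ := ih r (S ∩ f.vars) Finset.inter_subset_right hf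
    have hJf : ∀ u ∈ J, u ∈ f.vars := fun u hu => (Finset.mem_inter.1 (hJ hu)).2
    have hwJ : w ∉ J := fun hw => hwf (hJf w hw)
    refine ⟨(op, g) :: l', hplug l' hl', insert w J, ?_, ?_, fun l1 p l2 hl => ?_⟩
    · intro u hu
      rcases Finset.mem_insert.1 hu with rfl | hu
      · exact hwS
      · exact (Finset.mem_inter.1 (hJ hu)).1
    · rw [Finset.card_insert_of_notMem hwJ]
      omega
    · rcases l1 with _ | ⟨q, l1⟩
      · rw [List.nil_append, List.cons.injEq] at hl
        refine ⟨w, fun u hu hne _ => ?_⟩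
        rw [List.nil_append, ← hl.2]
        rcases Finset.mem_insert.1 hu with h' | hu
        · exact absurd h' hne
        · exact (plug_vars hl' u).1 (hJf u hu)
      · rw [List.cons_append, List.cons.injEq] at hl
        obtain ⟨u0, hu0⟩ := hJl l1 p l2 hl.2
        refine ⟨u0, fun u hu hne hp => ?_⟩
        rcases Finset.mem_insert.1 hu with rfl | hu
        · exact absurd ((plug_vars hl' u).2 ⟨p, by rw [hl.2]; simp, hp⟩) hwf
        · obtain ⟨p', hp', hup⟩ := hu0 u hu hne hp
          exact ⟨p', List.mem_cons_of_mem _ hp', hup⟩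

theorem half (b r : ℕ) (A B S : Finset ℕ) (hS : S ⊆ A ∪ B)
    (hc : (b + 1) * 2 ^ (r + 1) ≤ S.card) :
    (b + 1) * 2 ^ r ≤ (S ∩ A).card ∨ (b + 1) * 2 ^ r ≤ (S ∩ B).card := by
  by_contra hcon
  push Not at hcon
  have h1 : S.card ≤ (S ∩ A).card + (S ∩ B).card := by
    refine le_trans (Finset.card_le_card ?_) (Finset.card_union_le _ _)
    intro u hu
    rcases Finset.mem_union.1 (hS hu) with h | h
    · exact Finset.mem_union_left _ (Finset.mem_inter.2 ⟨hu, h⟩)
    · exact Finset.mem_union_right _ (Finset.mem_inter.2 ⟨hu, h⟩)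
  rw [pow_succ] at hc
  have h2 : (b + 1) * (2 ^ r * 2) = (b + 1) * 2 ^ r + (b + 1) * 2 ^ r := by ring
  omega

theorem zero_case (D : Fm F) (S : Finset ℕ) : Concl D S 0 :=
  ⟨[(false, D)], Plug.nil D, ∅, Finset.empty_subset _, le_rfl,
    fun _ _ _ _ => ⟨0, fun u hu => absurd hu (Finset.notMem_empty u)⟩⟩

theorem concl (b : ℕ) (D : Fm F) : D.Loc b → ∀ (r : ℕ) (S : Finset ℕ), S ⊆ D.vars →
    (b + 1) * 2 ^ r ≤ S.card → Concl D S r := by
  induction D with
  | leaf p =>
    intro hL r S hS hc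
    exfalso
    have h1 : S.card ≤ p.vars.card := Finset.card_le_card hS
    have h2 : p.vars.card ≤ b := hL
    have h3 : (b + 1) * 1 ≤ (b + 1) * 2 ^ r := Nat.mul_le_mul_left _ Nat.one_le_two_pow
    omega
  | add f g ihf ihg =>
    intro hL r S hS hc
    rcases r with _ | r
    · exact zero_case _ _
    · have hS' : S ⊆ f.vars ∪ g.vars := hS
      rcases half b r f.vars g.vars S hS' hc with h | h
      · exact step b r _ f g false (fun l' hl' => Plug.addL hl') (ihf hL.1) S hS' hc h
      · exact step b r _ g f false (fun l' hl' => Plug.addR hl') (ihg hL.2) S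
          (by rwa [Finset.union_comm]) hc h
  | mul f g ihf ihg =>
    intro hL r S hS hc
    rcases r with _ | r
    · exact zero_case _ _
    · have hS' : S ⊆ f.vars ∪ g.vars := hS
      rcases half b r f.vars g.vars S hS' hc with h | h
      · exact step b r _ f g true (fun l' hl' => Plug.mulL hl') (ihf hL.1) S hS' hc h
      · exact step b r _ g f true (fun l' hl' => Plug.mulR hl') (ihg hL.2) S
          (by rwa [Finset.union_comm]) hc h

theorem p_cat : P_CAT F := fun b r D S hL hS hc => concl b D hL r S hS hc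

end Pool.Agent.W2helper24.RF
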